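import Mathlib
import Pool.Agent.Helper41.Potts.Main

/-!
# The censoring inequality fails for the ferromagnetic Potts model, for every `q ≥ 3`

There is a tree `G` on 11 vertices (a star with four leaves, one of whose leaves is continued
by a path of six further vertices), a sequence `v` of six sites and the
subsequence `w` of `v` obtained by skipping its first update, such that for every number of
colours `q ≥ 3` there is an inverse temperature `β > 0` at which the
censored dynamics `w`, started from the monochromatic configuration, is strictly closer in total
variation to the Potts measure than the uncensored dynamics `v`.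
-/

open Pool.Agent.Helper41.Potts

namespace Pool.Agent.Results.MP_82263f_pr.CensoringFailsOnTree

theorem result :
    ∃ (G : SimpleGraph (Fin 11)) (_ : DecidableRel G.Adj) (v w : List (Fin 11)),
      G.IsTree ∧ w.Sublist v ∧ v.length = 6 ∧ w.length = 5 ∧
      ∀ q : ℕ, 3 ≤ q → ∃ β : ℝ, 0 < β ∧ ∀ g : Fin q,
        tvDist (law G β g w) (potts G β) < tvDist (law G β g v) (potts G β) := by
  refine ⟨tree, inferInstance, [1, 2, 3, 4, 0, 1], [2, 3, 4, 0, 1], tree_isTree,
    List.sublist_cons_self _ _, rfl, rfl, fun q hq => main hq⟩

end Pool.Agent.Results.MP_82263f_pr.CensoringFailsOnTree
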